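import Pool.Agent.TH727.MT.Sys

/-!
# The Mazur-Tate conjecture: reduction to conductors with few prime factors

`L` is a set of primes, `C l` (`l ∈ L`) is a quotient of `(ℤ/l)ˣ` (in the application its largest
quotient of `p`-power order), `G_m` the product of the `C l`, `l ∈ m` (`GG C m`): the Galois group of
the largest `p`-extension `F_m` of `ℚ` inside `ℚ(ζ_m)`.
-/

set_option autoImplicit false

namespace Pool.Agent.Results.MP_5deabe_nt.FewPrimeFactors

open Finset Pool.Agent.TH727.MT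

variable {L : Set ℕ} {C : L → Type} [∀ l, CommGroup (C l)]

/-- the Frobenius element of the prime `l` in `G_m`, `l ∉ m` -/
def frob (q : ∀ l : L, (ZMod l.1)ˣ →* C l) (m : Finset L) (l : L) : GG C m :=
  fun l' => if h : Nat.Coprime l.1 l'.1.1 then q l'.1 (ZMod.unitOfCoprime l.1 h) else 1

/-- the projection `ℤ_p[G_(m ∪ {l})] → ℤ_p[G_m]` -/
noncomputable def proj (p : ℕ) [Fact p.Prime] (m : Finset L) (l : L) :
    MonoidAlgebra ℤ_[p] (GG C (insert l m)) →+* MonoidAlgebra ℤ_[p] (GG C m) :=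
  mp (res (Finset.subset_insert l m))

/-- the element `g` of `G_m` as an element of `ℤ_p[G_m]` -/
noncomputable def el (p : ℕ) [Fact p.Prime] {m : Finset L} (g : GG C m) :
    MonoidAlgebra ℤ_[p] (GG C m) :=
  MonoidAlgebra.single g 1

/-- `x ∈ I^r`, `I` the augmentation ideal of `ℤ_p[G_m]` -/
def Ord (p : ℕ) [Fact p.Prime] (r : ℕ) {m : Finset L} (x : MonoidAlgebra ℤ_[p] (GG C m)) : Prop :=
  x ∈ augI ℤ_[p] (GG C m) ^ r

/-- `-(l σ_l - a_l + σ_l⁻¹) ∈ ℤ_p[G_m]` -/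
noncomputable def factS (p : ℕ) [Fact p.Prime] (a : ℕ → ℤ) (q : ∀ l : L, (ZMod l.1)ˣ →* C l)
    (m : Finset L) (l : L) : MonoidAlgebra ℤ_[p] (GG C m) :=
  -((l.1 : MonoidAlgebra ℤ_[p] (GG C m)) * el p (frob q m l) -
    ((a l.1 : ℤ) : MonoidAlgebra ℤ_[p] (GG C m)) + el p (frob q m l)⁻¹)

/-- `a_l - σ_l - σ_l⁻¹ ∈ ℤ_p[G_m]` -/
noncomputable def factM (p : ℕ) [Fact p.Prime] (a : ℕ → ℤ) (q : ∀ l : L, (ZMod l.1)ˣ →* C l)
    (m : Finset L) (l : L) : MonoidAlgebra ℤ_[p] (GG C m) :=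
  ((a l.1 : ℤ) : MonoidAlgebra ℤ_[p] (GG C m)) - el p (frob q m l) - el p (frob q m l)⁻¹

/-- elements `θ m ∈ ℤ_p[G_m]` with the norm relations of the elements `θ_{F_m, S}`: the image of
`θ (m ∪ {l})` in `ℤ_p[G_m]` is `- σ_l (1 - (a_l / l) σ_l⁻¹ + (1 / l) σ_l⁻²) * θ m` -/
structure SElements (p : ℕ) [Fact p.Prime] (a : ℕ → ℤ) (q : ∀ l : L, (ZMod l.1)ˣ →* C l) where
  θ : ∀ m : Finset L, MonoidAlgebra ℤ_[p] (GG C m)
  norm : ∀ (m : Finset L) (l : L), l ∉ m →
    (l.1 : MonoidAlgebra ℤ_[p] (GG C m)) * proj p m l (θ (insert l m)) = factS p a q m l * θ m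

/-- elements `θ m ∈ ℤ_p[G_m]` with the norm relations of the modular elements of Mazur and Tate:
the image of `θ (m ∪ {l})` in `ℤ_p[G_m]` is `(a_l - σ_l - σ_l⁻¹) * θ m` -/
structure ModularElements (p : ℕ) [Fact p.Prime] (a : ℕ → ℤ) (q : ∀ l : L, (ZMod l.1)ˣ →* C l) where
  θ : ∀ m : Finset L, MonoidAlgebra ℤ_[p] (GG C m)
  norm : ∀ (m : Finset L) (l : L), l ∉ m → proj p m l (θ (insert l m)) = factM p a q m l * θ m

/-- `A * ∏_{l ∈ m} (a_l - l - 1)` -/
noncomputable def factA (p : ℕ) [Fact p.Prime] (a : ℕ → ℤ) (A : ℤ_[p]) (m : Finset L) : ℤ_[p] :=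
  A * ∏ l ∈ m, (((a l.1 : ℤ) : ℤ_[p]) - (l.1 : ℤ_[p]) - 1)

/-- the formula of Q1 for `F_m`: `θ m ∈ I^r` and
`θ m ≡ (-1)^ν(m) * A * ∏_{l ∣ m} ((l + 1 - a_l) / l) * R_m` modulo `I^(r+1)`, where `R_m` is the
determinant of the classes of `H a b ∈ ∏ C l` (the values of the pairing) -/
def LeadingTerm {p : ℕ} [Fact p.Prime] {a : ℕ → ℤ} {q : ∀ l : L, (ZMod l.1)ˣ →* C l}
    (S : SElements p a q) {r : ℕ} (H : Fin r → Fin r → ∀ l, C l) (A : ℤ_[p]) (m : Finset L) : Prop :=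
  Ord p r (S.θ m) ∧
    Ord p (r + 1) (algebraMap ℤ_[p] _ (∏ l ∈ m, (l.1 : ℤ_[p])) * S.θ m -
      algebraMap ℤ_[p] _ (factA p a A m) * reg ℤ_[p] H m)

/-- the functional equation `ι(θ m) = (-1)^r s θ m` with some `s ∈ G_m`, for all `m` -/
def FunctionalEq {p : ℕ} [Fact p.Prime] {a : ℕ → ℤ} {q : ∀ l : L, (ZMod l.1)ˣ →* C l}
    (S : ModularElements p a q) (r : ℕ) : Prop :=
  ∀ m, ∃ s : GG C m, iota ℤ_[p] (GG C m) (S.θ m) = (-1) ^ r * (el p s * S.θ m)

/-- `P` holds for all finite subsets of `L` iff it holds for those with exactly `n` elements -/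
def Enough (n : ℕ) (P : Finset L → Prop) : Prop :=
  (∀ m, P m) ↔ ∀ m : Finset L, m.card = n → P m

section
variable (p : ℕ) [Fact p.Prime]

lemma isUnit_int {x : ℤ} (h : ¬ (p : ℤ) ∣ x) : IsUnit ((x : ℤ) : ℤ_[p]) := by
  rw [PadicInt.isUnit_iff]
  by_contra hne
  have h1 : ‖((x : ℤ) : ℤ_[p])‖ < 1 := lt_of_le_of_ne (PadicInt.norm_le_one _) hne
  exact h ((PadicInt.norm_int_lt_one_iff_dvd x).1 h1)

variable {p}

lemma algebraMap_unit_inv {R : Type} [CommRing R] [Algebra ℤ_[p] R] (x : ℤ_[p]) (hx : IsUnit x) :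
    algebraMap ℤ_[p] R (Ring.inverse x) * algebraMap ℤ_[p] R x = 1 := by
  rw [← map_mul, Ring.inverse_mul_cancel x hx, map_one]

/-- the system of `Pool.Agent.TH727.MT.NormSystem` attached to `SElements` -/
noncomputable def sysS (a : ℕ → ℤ) (q : ∀ l : L, (ZMod l.1)ˣ →* C l) (hL : ∀ l ∈ L, l.Prime ∧ l ≠ p)
    (hE : ∀ l ∈ L, ¬ (p : ℤ) ∣ (l : ℤ) + 1 - a l) (S : SElements p a q) : NormSystem ℤ_[p] C where
  θ := S.θ
  u := fun m l => algebraMap ℤ_[p] _ (Ring.inverse (l.1 : ℤ_[p])) * factS p a q m l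
  c := fun l => Ring.inverse (l.1 : ℤ_[p]) * (((a l.1 : ℤ) : ℤ_[p]) - (l.1 : ℤ_[p]) - 1)
  unit := by
    intro l
    have h1 : IsUnit (l.1 : ℤ_[p]) := by
      have := isUnit_int p (x := (l.1 : ℤ)) (by
        intro h
        have h2 : p ∣ l.1 := by exact_mod_cast h
        exact (hL l.1 l.2).2 (((Nat.prime_dvd_prime_iff_eq Fact.out (hL l.1 l.2).1).1 h2)).symm)
      simpa using this
    have h2 := isUnit_int p (hE l.1 l.2)
    have h3 : IsUnit (((a l.1 : ℤ) : ℤ_[p]) - (l.1 : ℤ_[p]) - 1) := by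
      have := h2.neg
      convert this using 1
      push_cast; ring
    exact (IsUnit.ringInverse h1).mul h3
  aug_u := by
    intro m l _
    simp only [factS, el, map_mul, map_neg, map_add, map_sub, aug_single, aug_algebraMap, map_natCast,
      map_intCast]
    ring
  norm := by
    intro m l hl
    have h := S.norm m l hl
    have h1 : IsUnit (l.1 : ℤ_[p]) := by
      have := isUnit_int p (x := (l.1 : ℤ)) (by
        intro h
        have h2 : p ∣ l.1 := by exact_mod_cast h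
        exact (hL l.1 l.2).2 (((Nat.prime_dvd_prime_iff_eq Fact.out (hL l.1 l.2).1).1 h2)).symm)
      simpa using this
    have h2 := algebraMap_unit_inv (R := MonoidAlgebra ℤ_[p] (GG C m)) (l.1 : ℤ_[p]) h1
    rw [map_natCast] at h2
    rw [mul_assoc, ← h, ← mul_assoc, h2, one_mul]
    rfl

/-- the system attached to `ModularElements` -/
noncomputable def sysM (a : ℕ → ℤ) (q : ∀ l : L, (ZMod l.1)ˣ →* C l)
    (hE : ∀ l ∈ L, ¬ (p : ℤ) ∣ a l - 2) (S : ModularElements p a q) : NormSystem ℤ_[p] C where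
  θ := S.θ
  u := fun m l => factM p a q m l
  c := fun l => ((a l.1 : ℤ) : ℤ_[p]) - 2
  unit := by
    intro l
    have := isUnit_int p (hE l.1 l.2)
    simpa using this
  aug_u := by
    intro m l _
    simp only [factM, el, map_sub, aug_single, map_intCast]
    ring
  norm := S.norm

end

/-- Reduction of the Mazur-Tate conjecture to few prime factors. -/
theorem result (p : ℕ) [Fact p.Prime] (hp : p ≠ 2) (L : Set ℕ) (hLinf : L.Infinite)
    (hL : ∀ l ∈ L, l.Prime ∧ l ≠ p) (a : ℕ → ℤ) (C : L → Type) [∀ l, CommGroup (C l)]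
    (q : ∀ l : L, (ZMod l.1)ˣ →* C l) (r : ℕ) :
    ((∀ l ∈ L, ¬ (p : ℤ) ∣ (l : ℤ) + 1 - a l) → ∀ S : SElements p a q,
      (∀ (H : Fin r → Fin r → ∀ l, C l) (A : ℤ_[p]), Enough r (LeadingTerm S H A)) ∧
      (1 ≤ r → Enough (r - 1) (fun m => Ord p r (S.θ m)))) ∧
    ((∀ l ∈ L, ¬ (p : ℤ) ∣ a l - 2) → 2 ≤ r → ∀ S : ModularElements p a q, FunctionalEq S r →
      Enough (r - 2) (fun m => Ord p r (S.θ m))) := by
  classical
  have : Infinite L := hLinf.to_subtype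
  refine ⟨fun hE S => ⟨fun H A => ?_, fun hr => ?_⟩, fun hE hr S hfe => ?_⟩
  · have key : ∀ m, LeadingTerm S H A m ↔ LT (sysS a q hL hE S) H A m := by
      intro m
      have hu : IsUnit (∏ l ∈ m, (l.1 : ℤ_[p])) := by
        refine Finset.prod_induction _ IsUnit (fun _ _ => IsUnit.mul) isUnit_one (fun l _ => ?_)
        have := isUnit_int p (x := (l.1 : ℤ)) (by
          intro h
          have h2 : p ∣ l.1 := by exact_mod_cast h
          exact (hL l.1 l.2).2 (((Nat.prime_dvd_prime_iff_eq Fact.out (hL l.1 l.2).1).1 h2)).symm)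
        simpa using this
      have hprod : (∏ l ∈ m, (l.1 : ℤ_[p])) * (A * ∏ l ∈ m, (Ring.inverse (l.1 : ℤ_[p]) *
          (((a l.1 : ℤ) : ℤ_[p]) - (l.1 : ℤ_[p]) - 1))) =
          A * ∏ l ∈ m, (((a l.1 : ℤ) : ℤ_[p]) - (l.1 : ℤ_[p]) - 1) := by
        rw [mul_left_comm, ← Finset.prod_mul_distrib]
        congr 1
        refine Finset.prod_congr rfl fun l _ => ?_
        have h1 : IsUnit (l.1 : ℤ_[p]) := by
          have := isUnit_int p (x := (l.1 : ℤ)) (by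
            intro h
            have h2 : p ∣ l.1 := by exact_mod_cast h
            exact (hL l.1 l.2).2 (((Nat.prime_dvd_prime_iff_eq Fact.out (hL l.1 l.2).1).1 h2)).symm)
          simpa using this
        rw [← mul_assoc, Ring.mul_inverse_cancel _ h1, one_mul]
      refine and_congr Iff.rfl ?_
      have e : algebraMap ℤ_[p] (MonoidAlgebra ℤ_[p] (GG C m)) (∏ l ∈ m, (l.1 : ℤ_[p])) * S.θ m -
          algebraMap ℤ_[p] _ (factA p a A m) * reg ℤ_[p] H m = algebraMap ℤ_[p] (MonoidAlgebra ℤ_[p] (GG C m)) (∏ l ∈ m, (l.1 : ℤ_[p])) *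
          ((sysS a q hL hE S).θ m - algebraMap ℤ_[p] _ (A * ∏ l ∈ m, (sysS a q hL hE S).c l) *
            reg ℤ_[p] H m) := by
        rw [factA, ← hprod, map_mul (algebraMap ℤ_[p] _) (∏ l ∈ m, (l.1 : ℤ_[p]))]
        show _ = _ * (S.θ m - algebraMap ℤ_[p] _ (A * ∏ l ∈ m, (Ring.inverse (l.1 : ℤ_[p]) *
          (((a l.1 : ℤ) : ℤ_[p]) - (l.1 : ℤ_[p]) - 1))) * reg ℤ_[p] H m)
        ring
      unfold Ord
      rw [e]
      exact Ideal.unit_mul_mem_iff_mem _ (hu.map _)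
    unfold Enough
    rw [forall_congr' key, lt_iff]
    exact forall_congr' fun m => imp_congr_right fun _ => (key m).symm
  · obtain ⟨K, rfl⟩ : ∃ K, r = K + 1 := ⟨r - 1, by omega⟩
    exact order_iff (sysS a q hL hE S) K
  · obtain ⟨K, rfl⟩ : ∃ K, r = K + 2 := ⟨r - 2, by omega⟩
    choose s hs using hfe
    have h2 : IsUnit (2 : ℤ_[p]) := by
      have := isUnit_int p (x := 2) (by
        intro h
        have h2 : p ∣ 2 := by exact_mod_cast h
        exact hp ((Nat.prime_dvd_prime_iff_eq Fact.out Nat.prime_two).1 h2))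
      simpa using this
    refine order_iff_fe h2 (sysM a q hE S) K s (fun m => ?_)
    have := hs m
    rw [pow_add, neg_one_sq, mul_one] at this
    exact this

end Pool.Agent.Results.MP_5deabe_nt.FewPrimeFactors
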